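import Pool.Agent.PQ94.Main

/-!
# The chain condition of the quotients of the supercompact Prikry forcing

Let `U` be a fine normal measure on `P_κ(λ)`, let `Q` be a complete subalgebra of the completion of
the supercompact Prikry forcing `P_U` and `H = G ∩ Q`. In `V[H]` the quotient `P_U/H` satisfies the
`λ⁺`-chain condition, as any quotient of a forcing with the `λ⁺`-chain condition does. The question
is about `V[G]` (for the Prikry forcing on `κ` the quotients satisfy the `κ⁺`-chain condition even
there, by the Galvin property of normal ultrafilters). Here the answer is negative for all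
`λ = μ⁺`, where `μ = κ` or `μ ≥ κ` has cofinality at least `κ`, and for every `U`.

**The subalgebra.** The trace of `x` is `x ∩ μ`. There are pairwise eventually different functions
`f_ρ : P_κ(μ) → κ`, `ρ < μ⁺` (if `d(ρ, ρ') ∈ b` then `f_ρ(b) ≠ f_ρ'(b)`), and an injective function
`ρ` on `P_κ(μ⁺)` that is generic for the measures involved: if `T` is the ultrafilter of the sets
`S ⊆ P_κ(μ) × κ` such that, for almost all `y`, for almost all `w`, the pair
`(w ∩ μ, f_(sup y)(w ∩ μ))` is in `S`, then for every sequence `S_b`, `b ∈ P_κ(μ)`, in `T`, for
almost all `z`, for almost all `w`, the pair `(w ∩ μ, f_ρ(z)(w ∩ μ))` is in `S_(z ∩ μ)`. The visible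
data of a generic sequence `x_0, x_1, …` are the pairs `(x_(n+1) ∩ μ, f_ρ(x_n)(x_(n+1) ∩ μ))`, and
`Q` is the largest subalgebra that does not separate twins: pairs of conditions with the same
visible data with the last points `x`, `x'` such that the next pair can be chosen to be the same,
for one common `b`, in a sufficiently rich way (`RhoData.Good`). Since twins have one step
extensions that are twins, for arbitrary measure one sets, `Q` is a complete subalgebra.

**The antichain.** For a branch `β : μ⁺ → 2` let `C_β` be the set of the `z` (in a closed set) such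
that the code of `β` restricted to `ξ` is in `z` for all `ξ ∈ z`. By the pigeonhole principle
`μ⁺⁺` branches have the same twins `([x], C_β)`, `([x'], C_β)`. If `β` and `β'` differ first at `Δ`
then every `z ∈ C_β ∩ C_β'` has `Δ ∈ z` or `z ⊆ Δ`. If two sets with the same trace contain `Δ`
then they have the same intersection with `Δ`. Two sequences with the same visible data through
both pairs of twins would lead, at the first place where `Δ` belongs to both of them, to some `z`
that contains `ρ(x_n)` and `ρ(x'_n)`, and then `f` separates them at `z ∩ μ`. So these pairs are an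
antichain of the product over `Q`, and this gives an antichain of `P_U/H` in `V[G]`.
-/

set_option autoImplicit false

universe u

open Cardinal Set

namespace Pool.Agent.Results.MP_60f81f_lc.QuotientChainCondition

open Pool.Agent.PQ54

/-- **The chain condition of the quotients of the supercompact Prikry forcing.** Assume GCH.

* Let `κ ≤ μ`, where `μ = κ` or the cofinality of `μ` is at least `κ`, and `λ = μ⁺`. Then for
  every fine normal measure `U` on `P_κ(λ)` there is a complete subalgebra `Q` of the completion of
  `P_U` such that the quotient `P_U/H`, `H = G ∩ Q`, does not satisfy the `λ⁺`-chain condition in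
  `V[G]`.
* For all `κ < λ` with `λ` regular and all fine normal measures `U` on `P_κ(λ)`, all the
  quotients `P_U/H`, `H = G ∩ Q`, satisfy the `λ⁺`-chain condition in `V[H]`. -/
theorem result (hG : GCH.{u}) :
    (∀ k m : Cardinal.{u}, k ≤ m → (m = k ∨ k ≤ m.ord.cof) →
      ∀ U : Ultrafilter (PK k (Order.succ m)),
      IsNormalFine k (Order.succ m) U →
      ∃ Q : Set (RO (Cond (Prec (κ := k) (l := Order.succ m)) U)),
        IsCompleteSubalgebra Q ∧ ¬ QuotientCC Q univ (Order.succ (Order.succ m))) ∧
    ∀ k l : Cardinal.{u}, k < l → l.IsRegular → ∀ U : Ultrafilter (PK k l),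
      IsNormalFine k l U → ∀ Q : Set (RO (Cond (Prec (κ := k) (l := l)) U)),
      IsCompleteSubalgebra Q → QuotientCC Q Q (Order.succ l) :=
  ⟨fun _ _ hkm hcf U hU => PQ94.neg_gch hG hkm hcf U hU,
    fun k l hkl hl U hU Q hQ => CCVH.vh _ _ (CCVH.cc _ Prec U _
      (lt_of_le_of_lt (CARDM.gchcard hG k l hU.uncountable hkl hl) (Order.lt_succ l))) Q hQ⟩

end Pool.Agent.Results.MP_60f81f_lc.QuotientChainCondition
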